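import Pool.Agent.L7h66.UA.StmY
import Pool.Agent.H565R2.FO2.USec

/-! # Part CNK of project UA (helper66): all but `k` points are constants -/

set_option autoImplicit false

namespace Pool.Agent.L7h10.UA

open Set Function MeasureTheory
open Pool.Agent.L7h66.UA

variable {a : ℕ → ℕ} {K : ℕ → Type}

/-- the quantifier-free type of the sequence `(u ∘ π, x.2)` -/
def sq {k : ℕ} (x : XC a K) (u : Fin k → ℕ) (π : Equiv.Perm (Fin k)) : Fin k ⊕ ℕ → ℕ := Sum.elim (u ∘ π) x.2

def qt {k : ℕ} (π : Equiv.Perm (Fin k)) (p : XC a K × (Fin k → ℕ)) :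
    (∀ i, (Fin (a i) → Fin k ⊕ ℕ) → K i) × ((Fin k ⊕ ℕ) → (Fin k ⊕ ℕ) → Bool) :=
  (fun i t => p.1.1 i (sq p.1 p.2 π ∘ t), fun b c => decide (sq p.1 p.2 π b = sq p.1 p.2 π c))

def Yset (k : ℕ) (B : Set (XC a K)) : Set (XC a K × (Fin k → ℕ)) :=
  {p | p.1 ∈ B ∧ Injective p.2 ∧ ∀ n, (∃ i, p.2 i = n) ↔ ¬ ∃ m, p.1.2 m = n}

theorem sq_surj {k : ℕ} {B : Set (XC a K)} {p : XC a K × (Fin k → ℕ)} (hp : p ∈ Yset k B) (π : Equiv.Perm (Fin k)) :
    Surjective (sq p.1 p.2 π) := by
  intro n
  by_cases h : ∃ m, p.1.2 m = n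
  · obtain ⟨m, hm⟩ := h
    exact ⟨Sum.inr m, hm⟩
  · obtain ⟨i, hi⟩ := (hp.2.2 n).2 h
    exact ⟨Sum.inl (π.symm i), by simp [sq, hi]⟩

/-- equal types give isomorphic structures -/
theorem iso_of_qt {k : ℕ} {B : Set (XC a K)} {p q : XC a K × (Fin k → ℕ)} (hp : p ∈ Yset k B) (hq : q ∈ Yset k B)
    {π ρ : Equiv.Perm (Fin k)} (h : qt π q = qt ρ p) : CIso q.1 p.1 := by
  have hs' := sq_surj hq π
  have hs := sq_surj hp ρ
  have h1 : ∀ i t, q.1.1 i (sq q.1 q.2 π ∘ t) = p.1.1 i (sq p.1 p.2 ρ ∘ t) := fun i t =>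
    congrFun (congrFun (congrArg Prod.fst h) i) t
  have h2 : ∀ b c, sq q.1 q.2 π b = sq q.1 q.2 π c ↔ sq p.1 p.2 ρ b = sq p.1 p.2 ρ c := fun b c => by
    have := congrFun (congrFun (congrArg Prod.snd h) b) c
    simpa [qt] using this
  set s' := sq q.1 q.2 π with hs'd
  set s := sq p.1 p.2 ρ with hsd
  have hkey : ∀ b, s (surjInv hs' (s' b)) = s b := fun b => (h2 _ _).1 (surjInv_eq hs' (s' b))
  let σ : Equiv.Perm ℕ := Equiv.ofBijective (fun n => s (surjInv hs' n)) (by
    constructor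
    · intro n m hnm
      have := (h2 _ _).2 hnm
      rwa [surjInv_eq hs', surjInv_eq hs'] at this
    · intro n
      obtain ⟨b, hb⟩ := hs n
      exact ⟨s' b, by simp only [hkey, hb]⟩)
  have hσ : ∀ b, σ (s' b) = s b := hkey
  refine ⟨σ, fun i v => ?_, fun m => ?_⟩
  · have hv : v = s' ∘ (fun j => surjInv hs' (v j)) := by
      funext j
      exact (surjInv_eq hs' (v j)).symm
    have e2 : σ ∘ s' ∘ (fun j => surjInv hs' (v j)) = s ∘ (fun j => surjInv hs' (v j)) := by
      funext j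
      exact hσ _
    rw [hv, e2, h1]
  · have := hσ (Sum.inr m)
    exact this.symm

/-- isomorphic structures have the same types -/
theorem qt_of_iso {k : ℕ} {B : Set (XC a K)} {p q : XC a K × (Fin k → ℕ)} (hp : p ∈ Yset k B) (hq : q ∈ Yset k B)
    (h : CIso p.1 q.1) (π : Equiv.Perm (Fin k)) : ∃ ρ, qt π p = qt ρ q := by
  obtain ⟨σ, h1, h2⟩ := h
  have hmem : ∀ i, ∃ j, q.2 j = σ (p.2 i) := by
    intro i
    refine (hq.2.2 _).2 ?_
    rintro ⟨m, hm⟩
    rw [h2 m] at hm
    exact (hp.2.2 _).1 ⟨i, rfl⟩ ⟨m, σ.injective hm⟩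
  choose r hr using hmem
  have hri : Injective r := by
    intro i j hij
    have : σ (p.2 i) = σ (p.2 j) := by rw [← hr, ← hr, hij]
    exact hp.2.1 (σ.injective this)
  let R : Equiv.Perm (Fin k) := Equiv.ofBijective r (Finite.injective_iff_bijective.1 hri)
  refine ⟨π.trans R, ?_⟩
  have hs : sq q.1 q.2 (π.trans R) = σ ∘ sq p.1 p.2 π := by
    funext b
    rcases b with i | m
    · exact hr (π i)
    · exact h2 m
  unfold qt
  rw [hs]
  refine Prod.ext ?_ ?_
  · funext i t
    exact (h1 i _).symm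
  · funext b c
    simp

theorem s_CNK : S_CNK := by
  classical
  intro a K _ _ _ _ k B hB hinv hcof
  have hYm : MeasurableSet (Yset k B) := by
    have e1 : MeasurableSet {p : XC a K × (Fin k → ℕ) | p.1 ∈ B} := measurable_fst hB
    have e2 : MeasurableSet {p : XC a K × (Fin k → ℕ) | Injective p.2} :=
      measurable_snd (Set.to_countable {u : Fin k → ℕ | Injective u}).measurableSet
    have e3 : MeasurableSet {p : XC a K × (Fin k → ℕ) | ∀ n, (∃ i, p.2 i = n) ↔ ¬ ∃ m, p.1.2 m = n} := by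
      rw [measurableSet_setOfPred]
      refine Measurable.forall fun n => Measurable.iff (Measurable.exists fun i => ?_)
        (Measurable.not (Measurable.exists fun m => ?_))
      · rw [← measurableSet_setOfPred]
        have hm : Measurable fun p : XC a K × (Fin k → ℕ) => p.2 i := (measurable_pi_apply i).comp measurable_snd
        exact hm (measurableSet_singleton n)
      · rw [← measurableSet_setOfPred]
        have hm : Measurable fun p : XC a K × (Fin k → ℕ) => p.1.2 m :=
          (measurable_pi_apply m).comp (measurable_snd.comp measurable_fst)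
        exact hm (measurableSet_singleton n)
    exact e1.inter (e2.inter e3)
  have : StandardBorelSpace (Yset k B) := hYm.standardBorel
  have hsq : ∀ (π : Equiv.Perm (Fin k)) (b : Fin k ⊕ ℕ),
      Measurable fun p : XC a K × (Fin k → ℕ) => sq p.1 p.2 π b := by
    intro π b
    rcases b with i | m
    · exact (measurable_pi_apply (π i)).comp measurable_snd
    · exact (measurable_pi_apply m).comp (measurable_snd.comp measurable_fst)
  have hqt : ∀ π : Equiv.Perm (Fin k), Measurable (qt (a := a) (K := K) π) := by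
    intro π
    refine Measurable.prodMk ?_ ?_
    · refine measurable_pi_lambda _ fun i => measurable_pi_lambda _ fun t => ?_
      have hev : Measurable fun z : ((Fin (a i) → ℕ) → K i) × (Fin (a i) → ℕ) => z.1 z.2 :=
        measurable_from_prod_countable_left fun v => measurable_pi_apply v
      refine hev.comp (Measurable.prodMk ?_ ?_)
      · exact (measurable_pi_apply i).comp (measurable_fst.comp measurable_fst)
      · exact measurable_pi_lambda _ fun j => hsq π (t j)
    · refine measurable_pi_lambda _ fun b => measurable_pi_lambda _ fun c => ?_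
      have hd : Measurable fun z : ℕ × ℕ => decide (z.1 = z.2) := measurable_of_countable _
      exact hd.comp ((hsq π b).prodMk (hsq π c))
  -- every member of the class has a code
  have hcode : ∀ x ∈ B, ∃ u : Fin k → ℕ, (x, u) ∈ Yset k B := by
    intro x hx
    obtain ⟨hf, hc⟩ := hcof x hx
    have : Fintype ((range x.2)ᶜ : Set ℕ) := hf.fintype
    have hcard : Fintype.card ((range x.2)ᶜ : Set ℕ) = k := by
      rw [← hc, Set.ncard_eq_toFinset_card', Set.toFinset_card]
    let e : Fin k ≃ ((range x.2)ᶜ : Set ℕ) := (Fintype.equivFinOfCardEq hcard).symm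
    refine ⟨fun i => (e i : ℕ), hx, fun i j hij => e.injective (Subtype.ext hij), fun n => ?_⟩
    constructor
    · rintro ⟨i, rfl⟩ ⟨m, hm⟩
      exact (e i).2 ⟨m, hm⟩
    · intro h
      have hn : n ∈ (range x.2)ᶜ := fun ⟨m, hm⟩ => h ⟨m, hm⟩
      exact ⟨e.symm ⟨n, hn⟩, by simp⟩
  by_cases hunc : (⋃ π : Equiv.Perm (Fin k), Set.range (fun y : Yset k B => qt π y.1)).Countable
  · left
    have hch : ∀ z ∈ ⋃ π : Equiv.Perm (Fin k), Set.range (fun y : Yset k B => qt π y.1),
        ∃ y : Yset k B, ∃ π, qt π y.1 = z := by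
      intro z hz
      obtain ⟨π, y, hy⟩ := Set.mem_iUnion.1 hz
      exact ⟨y, π, hy⟩
    choose f π hf using hch
    have : Countable (⋃ π : Equiv.Perm (Fin k), Set.range (fun y : Yset k B => qt π y.1) : Set _) := hunc.to_subtype
    refine ⟨Set.range (fun z : (⋃ π : Equiv.Perm (Fin k), Set.range (fun y : Yset k B => qt π y.1) : Set _) =>
      (f z.1 z.2).1.1), Set.countable_range _, fun x hx => ?_⟩
    obtain ⟨u, hu⟩ := hcode x hx
    have hz : qt 1 (x, u) ∈ ⋃ π : Equiv.Perm (Fin k), Set.range (fun y : Yset k B => qt π y.1) :=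
      Set.mem_iUnion.2 ⟨1, ⟨(x, u), hu⟩, rfl⟩
    exact ⟨_, ⟨⟨_, hz⟩, rfl⟩, iso_of_qt hu (f _ hz).2 (hf _ hz)⟩
  · right
    obtain ⟨h, h1, h2⟩ := Pool.Agent.H565R2.FO2.perfect_of_uncountable
      (Y := Yset k B) (X := XC a K) (fun y => y.1.1) (measurable_fst.comp measurable_subtype_coe)
      (fun (π : Equiv.Perm (Fin k)) (y : Yset k B) => qt π y.1) (fun π => (hqt π).comp measurable_subtype_coe)
      (fun y y' => CIso y.1.1 y'.1.1) (fun y y' hy π => qt_of_iso y.2 y'.2 hy π) hunc
    refine ⟨_, h1, fun c => (h c).2.1, fun c d hcd => ?_⟩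
    by_contra hne
    exact h2 c d hne hcd

end Pool.Agent.L7h10.UA
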